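import Pool.Agent.H23.Chip

set_option autoImplicit false

namespace Pool.Agent.Results.MP_5100e0_lc.CoNPHard
open Pool.Agent.H11.PT Pool.Agent.H23.Chip

/-- chip-firing reachability on a simple digraph: instance `(N, arcs, x, y)` -/
def Reach (p : ℕ × List (ℕ × ℕ) × List ℕ × List ℕ) : Prop :=
  Relation.ReflTransGen (Step (arc p.1 p.2.1)) (chips p.1 p.2.2.1) (chips p.1 p.2.2.2)

def red (φ : F) : ℕ × List (ℕ × ℕ) × List ℕ × List ℕ :=
  (3 * M φ, ed φ, (List.range (3 * M φ)).map fun v => (xs φ).getD v 0 - (if v = 0 then M φ else 0) +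
    if v ≠ 0 ∧ (0, v) ∈ ed φ then 1 else 0, xs φ)

theorem result : NPHard fun p => ¬ Reach p := by
  refine Hard.npHard fun L hL => ?_
  obtain ⟨f, hf, e⟩ := hard_ne L hL
  have : PT red := by unfold red; fun_prop
  refine ⟨_, this.comp hf, fun x => (e x).2.trans ?_⟩
  obtain ⟨h1, h2⟩ := (e x).1
  generalize f x = φ at h1 h2
  have hm := hM (φ := φ)
  let r : Fin (3 * M φ) := ⟨0, by omega⟩
  have ir : ∀ v, ¬ G φ v v := fun v h => h.1 rfl
  have dr : dg (G φ) r = M φ := by rw [dg_eq, if_pos (by simp [r]; omega)]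
  have h0 := (x0 h1).2
  have e1 : Reach (red φ) ↔ Relation.ReflTransGen (Step (G φ))
      (fire (G φ) (chips _ (xs φ)) r) (chips _ (xs φ)) := by
    refine Iff.of_eq (congrArg (fun z => Relation.ReflTransGen (Step (G φ)) z _)
      (funext fun (v : Fin (3 * M φ)) => ?_))
    have e : (red φ).2.2.1.getD v 0 = (xs φ).getD v 0 - (if v.1 = 0 then M φ else 0) +
        if v.1 ≠ 0 ∧ (0, v.1) ∈ ed φ then 1 else 0 := by
      simp [red, List.getD_eq_getElem?_getD]
    have := x_eq v
    simp only [chips] at this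
    simp only [fire, dr, chips, e, arc, r, ne_eq, Fin.ext_iff, eq_comm (a := 0)]
    by_cases c : v.1 = 0
    · rw [c] at this
      simp only [c, if_true, not_true, false_and, if_false]
      omega
    · simp [c]
  rw [e1, ← stable_iff h1 h2]
  refine ⟨fun ⟨g, h⟩ => not_reach ir (by rw [dr, x_eq]; exact_mod_cast h0) h, fun h => ?_⟩
  by_contra c
  refine h (reach ir (fun u v a => ?_) (fun v hv => ?_) (by omega) c)
  · obtain ⟨t, a, b⟩ := G_iff.1 a
    simp only [r, Fin.ext_iff, Fin.lt_def]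
    unfold tgt at b; split_ifs at b <;> omega
  · have : v.1 ≠ 0 := fun e => hv (Fin.ext e)
    rw [x_eq, dg_eq, X]
    split_ifs <;> omega

end Pool.Agent.Results.MP_5100e0_lc.CoNPHard
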